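import Pool.Agent.Q215.TD.Defs

/-!
# Project TD: the statements of the parts (lemma jobs)
-/

set_option autoImplicit false

namespace Pool.Agent.Q215.TD

open Filter Topology Manifold
open scoped ContDiff

/-! ## The local model -/

/-- TD-ITF (smallness of all derivatives for a small parameter).
Proof.  Let `Q (a, w) = iteratedFDeriv ℝ m (fun w => K (a, w)) w`.  Since
`(fun w => K (a, w)) = K ∘ (fun w => (a, 0) + inr w)`, the formulas for the iterated derivative of a
composition with a translation (`iteratedFDeriv_comp_add_left` or similar) and with a continuous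
linear map (`ContinuousLinearMap.iteratedFDeriv_comp_right`) give
`Q (a, w) = (iteratedFDeriv ℝ m K (a, w)).compContinuousLinearMap (fun _ => inr)`, hence `Q` is
continuous on `ℝ × E` (`ContDiff.continuous_iteratedFDeriv`), and `Q (0, w) = 0` because
`K (0, ·) = 0`.  By compactness of the closed ball with radius `r + 1` (tube lemma, for instance
`IsCompact.eventually_forall_of_forall_eventually` or `generalized_tube_lemma`) there is `η > 0` with
`‖Q (a, w)‖ < δ` for `|a| < η` and `‖w‖ ≤ r + 1`.  For `‖w‖ > r + 1` the function `K (a, ·)` is zero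
in a neighbourhood of `w`, so `Q (a, w) = 0`. -/
def S_ITF : Prop := ∀ (n : ℕ) (K : ℝ × W n → W n), ContDiff ℝ ∞ K → (∀ w, K (0, w) = 0) →
  ∀ r : ℝ, (∀ a w, r ≤ ‖w‖ → K (a, w) = 0) → ∀ (m : ℕ) (δ : ℝ), 0 < δ →
    ∃ η : ℝ, 0 < η ∧ ∀ a : ℝ, |a| < η → ∀ w : W n,
      ‖iteratedFDeriv ℝ m (fun w => K (a, w)) w‖ ≤ δ

/-- TD-TWS (the twist is smooth in both variables).
Proof.  `qn` is smooth (`ContDiff.norm_sq ℝ`), `Real.smoothTransition.contDiff`, `Complex.exp`,
`Complex.ofRealCLM`, products and pairs of smooth functions are smooth. -/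
def S_TWS : Prop := ∀ (n : ℕ) (ρ : ℝ), 0 < ρ →
  ContDiff ℝ ∞ (fun p : ℝ × W n => dtw ρ p.1 p.2)

/-- TD-GOOD (existence of the sequence of periods).
Proof.  For every `k` the property `P k N`: `2 ≤ N` and for all `m ≤ k`, `e ∈ {1, -1}`, `w`:
`‖iteratedFDeriv ℝ m (dtw (rad k) (e / N)) w‖ ≤ (1/2)^k` holds for all large `N` by `S_ITF` applied
to `K (a, w) = dtw (rad k) a w` (`S_TWS`; it is zero for `a = 0`, and for `‖w‖ ≥ rad k`, because then
`qn w ≥ rad k ^ 2`, the bump is zero and the twist is the identity; the maximum of the norms of the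
coordinates is at most the root of `qn`), for the finitely many `m ≤ k`.  Then take a strictly
increasing sequence (`Filter.extraction_forall_of_eventually`). -/
def S_GOOD : Prop := S_ITF → S_TWS → ∀ n : ℕ, ∃ N : ℕ → ℕ, GoodN n N

/-- TD-FSM (smoothness).  Proof.  `contDiff_tsum_of_eventually` (or `contDiff_tsum` after splitting
off finitely many terms): the derivative of order `m` of the `k`-th summand
`w ↦ dtw (rad k) (e / N k) (w - cen x k)` is the one of `dtw (rad k) (e / N k)` at `w - cen x k`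
(`iteratedFDeriv_comp_sub`), so it is bounded by `(1/2)^k` for all `k ≥ m`. -/
def S_FSM : Prop := S_TWS → ∀ (n : ℕ) (N : ℕ → ℕ), GoodN n N → ∀ (e : ℝ), (e = 1 ∨ e = -1) →
  ∀ x : ℕ → ℝ, ContDiff ℝ ∞ (FF (n := n) N e x)

/-- TD-FVAL (values of the map).
Proof.  The Euclidean balls `B_k` with centre `cen x k` and radius `rad k` are disjoint, even with
the double radius: the real part of the first coordinate of a point of the double ball `k` has
distance less than `2 rad k` from `rp k`, and `|rp k - rp l| ≥ 1 / ((k+1)(k+2)) ≥ 2 rad k + 2 rad l`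
for `k < l`.  For `w ∉ B_k` the bump is zero, hence `dtw (rad k) a (w - cen x k) = 0`.  So at most
one summand is not zero (`tsum_eq_single`, `tsum_eq_zero`...).  The twist preserves `qn`, so it maps
the ball to itself; `tw ρ a (tw ρ b w) = tw ρ (a + b) w` and `tw ρ 0 w = w`; this gives the inverse.
The balls are contained in `{‖w‖ < 2}` since `|rp k| ≤ 1`, `0 ≤ ht x k ≤ 1`, `rad k ≤ 1/32`. -/
def S_FVAL : Prop := ∀ (n : ℕ) (N : ℕ → ℕ), GoodN n N → ∀ (e : ℝ), (e = 1 ∨ e = -1) →
  ∀ (x : ℕ → ℝ),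
    (∀ (w : W n) (k l : ℕ), qn (w - cen x k) < (2 * rad k) ^ 2 → qn (w - cen x l) < (2 * rad l) ^ 2 →
      k = l) ∧
    (∀ (w : W n) (k : ℕ), qn (w - cen x k) < rad k ^ 2 →
      FF N e x w = cen x k + tw (rad k) (e / N k) (w - cen x k) ∧
        qn (FF N e x w - cen x k) < rad k ^ 2) ∧
    (∀ w : W n, (∀ k, rad k ^ 2 ≤ qn (w - cen x k)) → FF N e x w = w) ∧
    (∀ w : W n, FF N (-e) x (FF N e x w) = w) ∧
    (∀ w : W n, 3 ≤ ‖w‖ → FF N e x w = w) ∧
    ∀ w : W n, ‖w‖ < 3 → ‖FF N e x w‖ < 3

/-- TD-FCX (continuity in the parameter).  Proof.  `continuous_tsum`: `cen x k` depends continuously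
on `x`, the summands are continuous and bounded by `(1/2)^k` (`GoodN.bd` for `m = 0`,
`norm_iteratedFDeriv_zero`). -/
def S_FCX : Prop := S_TWS → ∀ (n : ℕ) (N : ℕ → ℕ), GoodN n N → ∀ (e : ℝ), (e = 1 ∨ e = -1) →
  ∀ w : W n, Continuous (fun x : ℕ → ℝ => FF N e x w)

/-- The piecewise linear function which is `0` outside `[0, 1]` and `1` on `[α - r, α + r]`. -/
noncomputable def pl (α r t : ℝ) : ℝ := max 0 (min 1 (min (t / (α - r)) ((1 - t) / (1 - α - r))))

/-- TD-PL (a family of homeomorphisms of the line).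
Proof.  `t + (γ - α) * pl α r t` is `t` for `t ≤ 0` and for `t ≥ 1`, it is `t (γ - r) / (α - r)` for
`0 ≤ t ≤ α - r`, `t + γ - α` for `α - r ≤ t ≤ α + r` and `1 - (1 - t) (1 - γ - r) / (1 - α - r)` for
`α + r ≤ t ≤ 1`.  So it maps these intervals to the corresponding intervals for `γ`, and the
function with `α` and `γ` interchanged is the inverse. -/
def S_PL : Prop := ∀ (r : ℝ), 0 < r → r ≤ 1 / 32 →
  Continuous (fun p : (Set.Icc (1 / 4 : ℝ) (3 / 4)) × ℝ => pl p.1 r p.2) ∧
  (∀ α t, 1 / 4 ≤ α → α ≤ 3 / 4 → |t - α| ≤ r → pl α r t = 1) ∧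
  (∀ α t, 1 / 4 ≤ α → α ≤ 3 / 4 → (t ≤ 0 ∨ 1 ≤ t) → pl α r t = 0) ∧
  ∀ α γ t, 1 / 4 ≤ α → α ≤ 3 / 4 → 1 / 4 ≤ γ → γ ≤ 3 / 4 →
    (t + (γ - α) * pl α r t) + (α - γ) * pl γ r (t + (γ - α) * pl α r t) = t

/-- TD-CONJ (topological conjugacy for parameters with finite `ℓ¹`-distance).
Proof.  For `k = 2 j` let `α = sq (x j)`, `β = sq (y j)`, `δ = β - α`, `|δ| ≤ |x j - y j|`, `r = rad k`.
For `w = (z, v)`, `u = re z`, `t = im z` let
`τ (w) = max 0 (min 1 (2 - max |u - rp k| ‖v‖ / r))`, `γ (w) = α + τ (w) δ` (in `[1/4, 3/4]`),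
`Δ_j (w) = τ (w) δ pl α r t` and `Δ'_j (w) = - τ (w) δ pl (γ (w)) r t`.
Both are continuous, `|Δ_j|, |Δ'_j| ≤ |x j - y j|`, and they are zero unless `|u - rp k| < 2 r`,
`‖v‖ < 2 r`, `0 < t < 1`; these sets are disjoint for different `j` (compare TD-FVAL), and they are
contained in `{‖w‖ < 3}`.  Let `h w = w + (i ∑' j, Δ_j (w), 0)` and `h' w = w + (i ∑' j, Δ'_j (w), 0)`
(continuous by `continuous_tsum`; at most one summand is nonzero).  Since `h` does not change `u` and
`v`, hence not `τ` and `γ`, TD-PL gives `h' (h w) = w` (there with `γ` equal to `γ (w)`) and, with the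
roles of `α` and `γ` interchanged, `h (h' w) = w`.
Conjugacy: (a) if `w ∈ B_k (x)`, `k = 2 j`, then `τ = 1` and `pl = 1` at `w` and at `FF N 1 x w ∈ B_k(x)`,
so `h` adds `i δ` to both points, and `h w - cen y k = w - cen x k`, hence
`FF N 1 y (h w) = cen y k + tw .. (w - cen x k) = h (FF N 1 x w)`.
(b) If `w ∈ B_k (x)` with `k` odd, then `u < 0` for all points of `B_k`, where `h` is the identity, and
`cen x k = cen y k`.
(c) If `w` is in no ball `B_k (x)`, then `h w` is in no ball `B_k (y)`: for odd `k` as in (b); for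
`k = 2 j`: if `h w ∈ B_k (y)` then `h'` subtracts `i δ` from it (`τ = 1`, `γ = β`, `pl = 1`), so
`w = h' (h w) ∈ B_k (x)`.  So both maps `FF` are the identity at `w`, `h w`. -/
def S_CONJ : Prop := S_FVAL → S_PL → ∀ (n : ℕ) (N : ℕ → ℕ), GoodN n N → ∀ (x y : ℕ → ℝ),
  Summable (fun j => |x j - y j|) → ∃ h h' : W n → W n, Supp h ∧ Supp h' ∧
    (∀ w, h' (h w) = w) ∧ (∀ w, h (h' w) = w) ∧ ∀ w, h (FF N 1 x w) = FF N 1 y (h w)

/-- The open set of the points of the ball `k` which are not fixed. -/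
def UU {n : ℕ} (x : ℕ → ℝ) (k : ℕ) : Set (W n) :=
  {w | qn (w - cen x k) < rad k ^ 2 ∧ w.1 - (cen (n := n) x k).1 ≠ 0}

/-- TD-UU.  Proof of the last claim: translate by `cen x k`; the set
`{v : W n | qn v < ρ ^ 2 ∧ v.1 ≠ 0}` is the image of the set `{v | v.1 ≠ 0}` under the continuous
function `v ↦ (ρ / √(1 + qn v)) • v` (inverse `u ↦ (1 / √(ρ ^ 2 - qn u)) • u`), and
`{v | v.1 ≠ 0} = {0}ᶜ ×ˢ univ` is preconnected (`isPreconnected_compl_singleton_of_one_lt_rank`,
`Complex.rank_real_complex`). -/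
def S_UU : Prop := ∀ (n : ℕ) (x : ℕ → ℝ) (k : ℕ), IsOpen (UU (n := n) x k) ∧
  (UU (n := n) x k).Nonempty ∧ IsPreconnected (UU (n := n) x k)

/-- TD-PER (periods).
Proof.  Use TD-FVAL.  For `v` with `qn v < ρ ^ 2` the bump is in `(0, 1]`, and it is `1` for
`qn v ≤ ρ ^ 2 / 2`.  `tw ρ a` preserves `qn`, hence the bump, and `(tw ρ a)^[m] v = tw ρ (m a) v`.
`tw ρ a v = v` if and only if `v.1 = 0` or `a * bump ρ v` is an integer (`Complex.exp_eq_one_iff`).
So for `w ∈ UU x k` and `0 < m < N k` the point `w` is not fixed by `(FF N 1 x)^[m]`, and for `v` with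
`0 < ‖v.1‖ ≤ ρ / 2`, `v.2 = 0`, it is fixed by `(FF N 1 x)^[N k]`. -/
def S_PER : Prop := S_FVAL → ∀ (n : ℕ) (N : ℕ → ℕ), GoodN n N → ∀ (x : ℕ → ℝ),
  {w : W n | FF N 1 x w ≠ w} = ⋃ k, UU x k ∧
  (∀ k, ∀ w ∈ UU (n := n) x k, FF N 1 x w ∈ UU (n := n) x k) ∧
  (∀ k, ∀ w ∈ UU (n := n) x k, ∀ m, 0 < m → m < N k → (FF N 1 x)^[m] w ≠ w) ∧
  ∀ k, ∃ w ∈ UU (n := n) x k, (FF N 1 x)^[N k] w = w

/-! ## Transplantation to a manifold -/

/-- TD-TRC.  Proof.  Let `K = J '' closedBall 0 3`, a compact, hence closed subset of `M`, contained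
in the open set `J.target`.  On `J.target` the map `tr J F` is `J ∘ F ∘ J.symm` (note that `F` maps
`J.source` to itself: the open ball with radius `3` to itself, and it is the identity outside), so it
is continuous there; on the open set `Kᶜ` it is the identity.  These two open sets cover `M`.  The
composition formula is checked by cases. -/
def S_TRC : Prop := ∀ (n : ℕ) (M : Type) [TopologicalSpace M] [T2Space M]
  (J : OpenPartialHomeomorph (W n) M), Metric.closedBall 0 3 ⊆ J.source →
    (∀ F : W n → W n, Supp F → Continuous (tr J F) ∧ (∀ w ∈ J.source, F w ∈ J.source) ∧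
      (∀ w ∈ J.source, tr J F (J w) = J (F w)) ∧ ∀ p, p ∉ J.target → tr J F p = p) ∧
    ∀ F G : W n → W n, Supp F → Supp G → ∀ p, tr J F (tr J G p) = tr J (F ∘ G) p

/-- TD-TRS.  Proof.  As TD-TRC: `tr J F` is smooth on the open set `J.target` as a composition of
smooth maps, and it is the identity on the open set `(J '' closedBall 0 3)ᶜ`. -/
def S_TRS : Prop := S_TRC → ∀ (n : ℕ) (M : Type) [TopologicalSpace M] [T2Space M]
  [ChartedSpace (EuclideanSpace ℝ (Fin (n + 2))) M] [IsManifold (𝓡 (n + 2)) ∞ M]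
  (J : OpenPartialHomeomorph (W n) M), Emb J → ∀ F : W n → W n, Supp F → ContDiff ℝ ∞ F →
    ContMDiff (𝓡 (n + 2)) (𝓡 (n + 2)) ∞ (tr J F)

/-- TD-CH.  Proof.  Take a point `p₀` and the chart `φ = chartAt _ p₀`; there is `ε > 0` such that the
closed ball with centre `φ p₀` and radius `4 ε` is contained in `φ.target`.  There is a continuous
linear equivalence `L : W n ≃L[ℝ] EuclideanSpace ℝ (Fin (n + 2))` (equal finite dimensions), let
`‖L w‖ ≤ C ‖w‖`, `C > 0`.  Let `J` be the composition of the homeomorphism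
`w ↦ φ p₀ + (ε / C) • L w` with `φ.symm`.  It is smooth in both directions (`contMDiffOn_chart`,
`contMDiffOn_chart_symm`, and affine maps are smooth), and its source contains the closed ball with
radius `3`. -/
def S_CH : Prop := ∀ (n : ℕ) (M : Type) [TopologicalSpace M] [Nonempty M]
  [ChartedSpace (EuclideanSpace ℝ (Fin (n + 2))) M] [IsManifold (𝓡 (n + 2)) ∞ M],
    ∃ J : OpenPartialHomeomorph (W n) M, Emb J

/-- TD-INV1: a conjugacy maps the ball with number `k` to the ball with number `k`.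
Proof.  Let `f_x = tr J (FF N 1 x)`.  By TD-TRC and TD-PER the set of the points of `M` which are not
fixed by `f_x` is the union of the sets `J '' UU x k`, which are open, preconnected (TD-UU), nonempty
and pairwise disjoint; the same for `y`.  The homeomorphism `h` maps the first set onto the second
one.  The preconnected nonempty set `h '' (J '' UU x k)` is contained in one of the sets
`J '' UU y l` (`IsPreconnected.subset_or_subset` or `IsPreconnected.subset_of_disjoint` applied to
`J '' UU y l` and the union of the others).  By TD-PER there is `p ∈ J '' UU x k` with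
`f_x^[N k] p = p`, hence `f_y^[N k] (h p) = h p` and `N l ≤ N k`.  In the same way `h.symm` maps
`J '' UU y l` into one of the sets `J '' UU x k'`, and `k' = k` because `h.symm (h p) = p`; so
`N k ≤ N l`.  Hence `N k = N l` and `k = l`. -/
def S_INV1 : Prop := S_FVAL → S_UU → S_PER → S_TRC → ∀ (n : ℕ) (N : ℕ → ℕ), GoodN n N →
  ∀ (M : Type) [TopologicalSpace M] [T2Space M] (J : OpenPartialHomeomorph (W n) M),
    Metric.closedBall 0 3 ⊆ J.source → ∀ (x y : ℕ → ℝ) (h : M ≃ₜ M),
      (∀ p, h (tr J (FF N 1 x) p) = tr J (FF N 1 y) (h p)) →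
        ∀ k, ∀ w ∈ UU (n := n) x k, ∃ w' ∈ UU (n := n) y k, h (J w) = J w'

/-- TD-INV2: the conclusion.
Proof.  Choose `w_k ∈ UU x k` and `w'_k ∈ UU y k` with `h (J w_k) = J (w'_k)`.  The distance of `w_k`
and `cen x k` (of `w'_k` and `cen y k`) is at most `rad k`, which tends to zero, and `rp k` tends to
zero.  (a) `h (J (seg t)) = J (seg t)` for all `t ∈ [0, 1]`: there are odd numbers
`k_0 < k_1 < ⋯` with `ht x (k_i) = qs (k_i / 2) → t` (for every `ε` and every bound there is `j`
above this bound with `|qs j - t| < ε`: take `m` with `|denseSeq _ m - t| < ε` and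
`j = Nat.pair m a`, `a` large), so that `cen x (k_i) = cen y (k_i) → seg t`, `w_{k_i} → seg t`,
`w'_{k_i} → seg t`; use continuity of `h` and `J` (`seg t` is in the source) and uniqueness of limits.
(b) If `sq (x j) - sq (y j)` does not tend to zero, then there are `ε > 0` and a subsequence with
`|sq (x j) - sq (y j)| ≥ ε`, and by compactness of `[1/4, 3/4]²` a further subsequence with
`sq (x j) → a`, `sq (y j) → b`, `a ≠ b`.  For `k = 2 j`: `w_k → seg a`, `w'_k → seg b`, so
`h (J (seg a)) = J (seg b)`; by (a) `J (seg a) = J (seg b)` and `a = b`, a contradiction. -/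
def S_INV2 : Prop := ∀ (n : ℕ) (M : Type) [TopologicalSpace M] [T2Space M]
  (J : OpenPartialHomeomorph (W n) M), Metric.closedBall 0 3 ⊆ J.source →
    ∀ (x y : ℕ → ℝ) (h : M → M), Continuous h →
      (∀ k, (UU (n := n) x k).Nonempty) →
      (∀ k, ∀ w ∈ UU (n := n) x k, ∃ w' ∈ UU (n := n) y k, h (J w) = J w') →
        Tendsto (fun j => sq (x j) - sq (y j)) atTop (𝓝 0)

/-! ## Baire category and measurability -/

/-- TD-BAI.  Proof.  Take `x ∈ C` (`C` is dense).  For every `a` the set of the `y` such that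
`1 / 5 < |sq (x j) - sq (y j)|` for some `j ≥ a` is open and dense (`sq 0 = 1/4`, `sq 1 = 3/4`, one of
them has distance at least `1/4` from `sq (x j)`; change `y` at one large coordinate).  So the
intersection of these sets with `C` is comeager, hence not empty. -/
def S_BAI : Prop := ∀ C ∈ residual (ℕ → ℝ), ∃ x ∈ C, ∃ y ∈ C,
  ¬ Tendsto (fun j => sq (x j) - sq (y j)) atTop (𝓝 0)

/-- TD-MEA.  Proof.  `M` is a compact metrizable space, hence Polish, and has a countable dense
subset `D`.  The map `e : X → (D → M)`, `e f = f|_D`, is continuous and injective (two continuous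
maps which agree on `D` are equal), so it is a measurable embedding of the Polish space `X` with its
Borel structure (`Continuous.measurableEmbedding`).  So `f` is measurable if `e ∘ f` is. -/
def S_MEA : Prop := ∀ (M : Type) [TopologicalSpace M] [T2Space M] [CompactSpace M]
  [SecondCountableTopology M] (X : Type) (τ : TopologicalSpace X) (_ : @PolishSpace X τ)
  (ev : X → M → M), (∀ f, Continuous (ev f)) → Function.Injective ev →
    (∀ p, @Continuous X M τ _ (fun f => ev f p)) → ∀ g : (ℕ → ℝ) → X,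
      (∀ p, Continuous (fun x => ev (g x) p)) → @Measurable _ _ _ (@borel X τ) g

end Pool.Agent.Q215.TD
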