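import Mathlib

/-!
# Project TD (MP_9aeaaa_lc, Q2): topological conjugacy of diffeomorphisms in dimension at least two
is not reducible to an action of `S_∞`

Idea.  In the local model `ℂ × ℝⁿ` we consider diffeomorphisms which are the identity outside small
disjoint balls `B_k`; in `B_k` they are a twist: rotation of the first coordinate by the angle
`2 π β / N_k`, where `β = 1` near the centre and `β = 0` at the boundary.  The periods `N_k` are
distinct and grow so fast that everything is smooth.  The balls with odd `k` do not move, and they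
accumulate at every point of the segment `I = {(i t, 0) : 0 ≤ t ≤ 1}`.  The ball with number
`k = 2 j` has the centre `(1 / (k + 1) + i sq (x_j), 0)`.  A conjugacy of the diffeomorphisms given
by `x` and `y` maps `B_k` to `B_k`, hence fixes all points of `I`, hence `sq (x_j) - sq (y_j) → 0`.
Conversely, if `∑ |x_j - y_j|` is finite, then the diffeomorphisms are topologically conjugate.
-/

set_option autoImplicit false

namespace Pool.Agent.Q215.TD

open Filter Topology Manifold
open scoped ContDiff

/-- The local model: `ℂ × ℝⁿ` (with the maximum norm). -/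
abbrev W (n : ℕ) : Type := ℂ × EuclideanSpace ℝ (Fin n)

variable {n : ℕ}

/-- The square of the Euclidean norm of the product. -/
noncomputable def qn (w : W n) : ℝ := ‖w.1‖ ^ 2 + ‖w.2‖ ^ 2

/-- A bump function, positive exactly on the open ball with radius `ρ` of the Euclidean norm. -/
noncomputable def bump (ρ : ℝ) (w : W n) : ℝ := Real.smoothTransition (2 - 2 * qn w / ρ ^ 2)

/-- The twist: rotation of the first coordinate by the angle `2 π a β(w)`. -/
noncomputable def tw (ρ a : ℝ) (w : W n) : W n :=
  (Complex.exp (((2 * Real.pi * (a * bump ρ w) : ℝ) : ℂ) * Complex.I) * w.1, w.2)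

/-- The difference between the twist and the identity. -/
noncomputable def dtw (ρ a : ℝ) (w : W n) : W n := tw ρ a w - w

/-- The radius of the ball with number `k`. -/
noncomputable def rad (k : ℕ) : ℝ := 1 / (8 * ((k : ℝ) + 2) ^ 2)

/-- The retraction of the real line to `[1/4, 3/4]`. -/
noncomputable def sq (t : ℝ) : ℝ := max (1 / 4) (min (3 / 4) t)

/-- A sequence of points of `[0, 1]` which comes close to every point of `[0, 1]` infinitely
often. -/
noncomputable def qs (j : ℕ) : ℝ :=
  (TopologicalSpace.denseSeq (Set.Icc (0 : ℝ) 1) j.unpair.1 : ℝ)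

/-- The height of the centre of the ball with number `k`. -/
noncomputable def ht (x : ℕ → ℝ) (k : ℕ) : ℝ := if k % 2 = 0 then sq (x (k / 2)) else qs (k / 2)

/-- The real part of the centre of the ball with number `k`. -/
noncomputable def rp (k : ℕ) : ℝ := (-1) ^ k / ((k : ℝ) + 1)

/-- The centre of the ball with number `k`. -/
noncomputable def cen (x : ℕ → ℝ) (k : ℕ) : W n := (⟨rp k, ht x k⟩, 0)

/-- The point `i t` of the segment. -/
noncomputable def seg (t : ℝ) : W n := (⟨0, t⟩, 0)

/-- A sequence of periods which grows so fast that the infinite sum of twists is smooth. -/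
structure GoodN (n : ℕ) (N : ℕ → ℕ) : Prop where
  mono : StrictMono N
  two : ∀ k, 2 ≤ N k
  bd : ∀ k, ∀ m ≤ k, ∀ e : ℝ, (e = 1 ∨ e = -1) → ∀ w : W n,
    ‖iteratedFDeriv ℝ m (dtw (rad k) (e / N k)) w‖ ≤ (1 / 2) ^ k

/-- The diffeomorphism of the local model (`e = 1`) and its inverse (`e = -1`). -/
noncomputable def FF (N : ℕ → ℕ) (e : ℝ) (x : ℕ → ℝ) (w : W n) : W n :=
  w + ∑' k, dtw (rad k) (e / N k) (w - cen x k)

/-- The maps of the local model which can be transplanted to a manifold. -/
structure Supp (F : W n → W n) : Prop where
  cont : Continuous F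
  out : ∀ w, 3 ≤ ‖w‖ → F w = w
  ins : ∀ w, ‖w‖ < 3 → ‖F w‖ < 3

section

variable {M : Type*} [TopologicalSpace M]

open Classical in
/-- The transplantation to `M` of a map of the local model. -/
noncomputable def tr (J : OpenPartialHomeomorph (W n) M) (F : W n → W n) (p : M) : M :=
  if p ∈ J.target then J (F (J.symm p)) else p

/-- `J` is a smooth embedding of an open set which contains the closed ball with radius three. -/
structure Emb [ChartedSpace (EuclideanSpace ℝ (Fin (n + 2))) M]
    (J : OpenPartialHomeomorph (W n) M) : Prop where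
  ball : Metric.closedBall 0 3 ⊆ J.source
  sm : ContMDiffOn 𝓘(ℝ, W n) (𝓡 (n + 2)) ∞ J J.source
  sm' : ContMDiffOn (𝓡 (n + 2)) 𝓘(ℝ, W n) ∞ J.symm J.target

end

end Pool.Agent.Q215.TD
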