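import Pool.Agent.H468R2.KA.P_F_perm
import Pool.Agent.H468R2.KA.P_F_vt
import Pool.Agent.H468R2.KA.P_F_top
import Pool.Agent.H468R2.MA.P_T_BF
import Pool.Agent.H468R2.MA.P_T_C
import Pool.Agent.H468R2.MA.P_T_CH
import Pool.Agent.H468R2.MA.P_T_LOC
import Pool.Agent.H468R2.MA.P_T_LOC1
import Pool.Agent.H468R2.MA.P_T_SC

/-!
# Generic ergodicity for `S_∞` (from the starting library on Kakutani equivalence)
-/

set_option autoImplicit false

namespace Pool.Agent.Q215.TD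

universe v

/-- The Borel structure of the Polish group `S_∞` of all permutations of `ℕ` (topology of pointwise
convergence). -/
def permBorel : MeasurableSpace (Equiv.Perm ℕ) :=
  MeasurableSpace.generateFrom {U | ∃ i j : ℕ, U = {π : Equiv.Perm ℕ | π i = j}}

/-- The action of `S_∞` on the measurable space `Z` is Borel. -/
def BorelAction (Z : Type v) [MeasurableSpace Z] [MulAction (Equiv.Perm ℕ) Z] : Prop :=
  @Measurable (Equiv.Perm ℕ × Z) Z (permBorel.prod inferInstance) inferInstance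
    (fun p => p.1 • p.2)

theorem erg (Z : Type v) [MeasurableSpace Z] [StandardBorelSpace Z] [MulAction (Equiv.Perm ℕ) Z]
    (hZ : BorelAction Z) (f : (ℕ → ℝ) → Z) (hf : Measurable f)
    (hinv : ∀ x y : ℕ → ℝ, Summable (fun n => |x n - y n|) → ∃ π : Equiv.Perm ℕ, π • f x = f y) :
    ∃ C ∈ residual (ℕ → ℝ), ∀ x ∈ C, ∀ y ∈ C, ∃ π : Equiv.Perm ℕ, π • f x = f y :=
  Pool.Agent.H468R2.KA.t_F_perm Pool.Agent.H468R2.KA.t_F_top
    (Pool.Agent.H468R2.KA.t_F_vt Pool.Agent.H468R2.KA.t_F_top)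
    (Pool.Agent.H468R2.MA.t_T_ERG (Pool.Agent.H468R2.MA.t_T_C Pool.Agent.H468R2.MA.t_T_SC
      (Pool.Agent.H468R2.MA.t_T_LOC Pool.Agent.H468R2.MA.t_T_SC
        (Pool.Agent.H468R2.MA.t_T_LOC1 Pool.Agent.H468R2.MA.t_T_SC)))
      Pool.Agent.H468R2.MA.t_T_CH) Z hZ f hf hinv

end Pool.Agent.Q215.TD
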