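import Pool.Agent.Q215.TD.Stm
import Pool.Agent.Q215.TD.Turb

/-!
# Project TD: the assembly
-/

set_option autoImplicit false

namespace Pool.Agent.Q215.TD

open Filter Topology Manifold
open scoped ContDiff

universe v

theorem tr_id {n : ℕ} {M : Type} [TopologicalSpace M] (J : OpenPartialHomeomorph (W n) M)
    (F : W n → W n) (hF : ∀ w, F w = w) (p : M) : tr J F p = p := by
  unfold tr
  split_ifs with h
  · rw [hF, J.right_inv h]
  · rfl

theorem supp_FF (hF : S_FVAL) (hS : S_FSM) (hT : S_TWS) {n : ℕ} {N : ℕ → ℕ} (hN : GoodN n N)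
    (e : ℝ) (he : e = 1 ∨ e = -1) (x : ℕ → ℝ) : Supp (FF (n := n) N e x) where
  cont := (hS hT n N hN e he x).continuous
  out := (hF n N hN e he x).2.2.2.2.1
  ins := (hF n N hN e he x).2.2.2.2.2

theorem main (hITF : S_ITF) (hTWS : S_TWS) (hGOOD : S_GOOD) (hFSM : S_FSM) (hFCX : S_FCX)
    (hFVAL : S_FVAL) (hPL : S_PL) (hCONJ : S_CONJ) (hUU : S_UU) (hPER : S_PER) (hTRC : S_TRC)
    (hTRS : S_TRS) (hCH : S_CH) (hINV1 : S_INV1) (hINV2 : S_INV2) (hBAI : S_BAI) (hMEA : S_MEA)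
    (n : ℕ) (M : Type) [TopologicalSpace M] [T2Space M] [CompactSpace M] [Nonempty M]
    [ChartedSpace (EuclideanSpace ℝ (Fin (n + 2))) M] [IsManifold (𝓡 (n + 2)) ∞ M]
    (τ : TopologicalSpace (Diffeomorph (𝓡 (n + 2)) (𝓡 (n + 2)) M M ∞)) (hτ : @PolishSpace _ τ)
    (hev : ∀ p : M, @Continuous _ M τ _
      (fun f : Diffeomorph (𝓡 (n + 2)) (𝓡 (n + 2)) M M ∞ => f p))
    (Z : Type v) [MeasurableSpace Z] [StandardBorelSpace Z] [MulAction (Equiv.Perm ℕ) Z]
    (hZ : BorelAction Z) :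
    ¬ ∃ F : Diffeomorph (𝓡 (n + 2)) (𝓡 (n + 2)) M M ∞ → Z, @Measurable _ _ (@borel _ τ) _ F ∧
      ∀ f g : Diffeomorph (𝓡 (n + 2)) (𝓡 (n + 2)) M M ∞,
        (∃ h : M ≃ₜ M, ∀ p, h (f p) = g (h p)) ↔ ∃ π : Equiv.Perm ℕ, π • F f = F g := by
  rintro ⟨F, hFm, hF⟩
  obtain ⟨J, hJ⟩ := hCH n M
  obtain ⟨N, hN⟩ := hGOOD hITF hTWS n
  have hsupp : ∀ e : ℝ, (e = 1 ∨ e = -1) → ∀ x, Supp (FF (n := n) N e x) := fun e he x =>
    supp_FF hFVAL hFSM hTWS hN e he x
  have hsm : ∀ e : ℝ, (e = 1 ∨ e = -1) → ∀ x, ContMDiff (𝓡 (n + 2)) (𝓡 (n + 2)) ∞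
      (tr J (FF (n := n) N e x)) := fun e he x =>
    hTRS hTRC n M J hJ _ (hsupp e he x) (hFSM hTWS n N hN e he x)
  have hinv : ∀ e : ℝ, (e = 1 ∨ e = -1) → ∀ x p,
      tr J (FF (n := n) N (-e) x) (tr J (FF (n := n) N e x) p) = p := by
    intro e he x p
    have he' : -e = 1 ∨ -e = -1 := by
      rcases he with he | he
      · right; rw [he]
      · left; rw [he]; norm_num
    rw [(hTRC n M J hJ.ball).2 _ _ (hsupp (-e) he' x) (hsupp e he x) p]
    exact tr_id J _ (fun w => (hFVAL n N hN e he x).2.2.2.1 w) p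
  let Φ : (ℕ → ℝ) → Diffeomorph (𝓡 (n + 2)) (𝓡 (n + 2)) M M ∞ := fun x =>
    { toFun := tr J (FF (n := n) N 1 x)
      invFun := tr J (FF (n := n) N (-1) x)
      left_inv := fun p => hinv 1 (Or.inl rfl) x p
      right_inv := fun p => by
        have h := hinv (-1) (Or.inr rfl) x p
        rwa [neg_neg] at h
      contMDiff_toFun := hsm 1 (Or.inl rfl) x
      contMDiff_invFun := hsm (-1) (Or.inr rfl) x }
  have hΦ : ∀ x p, Φ x p = tr J (FF (n := n) N 1 x) p := fun x p => rfl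
  have : SecondCountableTopology M :=
    ChartedSpace.secondCountable_of_sigmaCompact (EuclideanSpace ℝ (Fin (n + 2))) M
  have hmeas : @Measurable _ _ _ (@borel _ τ) Φ := by
    refine hMEA M _ τ hτ (fun f p => f p) (fun f => f.continuous) DFunLike.coe_injective hev Φ ?_
    intro p
    by_cases hp : p ∈ J.target
    · have h1 : (fun x => Φ x p) = fun x => J (FF (n := n) N 1 x (J.symm p)) := by
        funext x
        rw [hΦ]
        unfold tr
        rw [if_pos hp]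
      have h2 : Continuous (fun x => J (FF (n := n) N 1 x (J.symm p))) := by
        refine ContinuousOn.comp_continuous J.continuousOn
          (hFCX hTWS n N hN 1 (Or.inl rfl) (J.symm p)) ?_
        intro x
        exact ((hTRC n M J hJ.ball).1 _ (hsupp 1 (Or.inl rfl) x)).2.1 _ (J.map_target hp)
      show Continuous (fun x => Φ x p)
      rw [h1]
      exact h2
    · have h1 : (fun x => Φ x p) = fun _ => p := by
        funext x
        rw [hΦ]
        unfold tr
        rw [if_neg hp]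
      show Continuous (fun x => Φ x p)
      rw [h1]
      exact continuous_const
  have hfm : Measurable (fun x => F (Φ x)) :=
    @Measurable.comp _ _ _ _ (@borel _ τ) _ _ _ hFm hmeas
  obtain ⟨C, hC, hCC⟩ := erg Z hZ (fun x => F (Φ x)) hfm (by
    intro x y hxy
    obtain ⟨h, h', hs, hs', h1, h2, h3⟩ := hCONJ hFVAL hPL n N hN x y hxy
    rw [← hF]
    have e1 : ∀ p, tr J h' (tr J h p) = p := fun p => by
      rw [(hTRC n M J hJ.ball).2 _ _ hs' hs p]
      exact tr_id J _ h1 p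
    have e2 : ∀ p, tr J h (tr J h' p) = p := fun p => by
      rw [(hTRC n M J hJ.ball).2 _ _ hs hs' p]
      exact tr_id J _ h2 p
    refine ⟨{ toFun := tr J h, invFun := tr J h', left_inv := e1, right_inv := e2,
              continuous_toFun := ((hTRC n M J hJ.ball).1 _ hs).1,
              continuous_invFun := ((hTRC n M J hJ.ball).1 _ hs').1 }, ?_⟩
    intro p
    show tr J h (Φ x p) = Φ y (tr J h p)
    rw [hΦ, hΦ, (hTRC n M J hJ.ball).2 _ _ hs (hsupp 1 (Or.inl rfl) x) p,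
      (hTRC n M J hJ.ball).2 _ _ (hsupp 1 (Or.inl rfl) y) hs p]
    congr 1
    funext w
    exact h3 w)
  obtain ⟨x, hx, y, hy, hxy⟩ := hBAI C hC
  obtain ⟨h, hh⟩ := (hF (Φ x) (Φ y)).2 (hCC x hx y hy)
  refine hxy (hINV2 n M J hJ.ball x y h h.continuous (fun k => (hUU n x k).2.1) ?_)
  exact hINV1 hFVAL hUU hPER hTRC n N hN M J hJ.ball x y h hh

end Pool.Agent.Q215.TD
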